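import Pool.Agent.Frus.Final

namespace Pool.Agent.Results.MP_c06078_co.GirthFive

universe u

/-- The signature obtained from the signature `σ` by switching at the edge cut `[X, Xᶜ]`: the
sign of an edge is reversed exactly when the edge has one end in `X` and the other outside. -/
noncomputable def switch {V : Type u} {G : SimpleGraph V} (σ : G.edgeSet → ℤˣ) (X : Set V) :
    G.edgeSet → ℤˣ :=
  fun e => open Classical in if ∃ a ∈ X, ∃ b ∉ X, (e : Sym2 V) = s(a, b) then - σ e else σ e

/-- `τ` arises from `σ` by switching at some edge cut. -/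
def SwitchingEquivalent {V : Type u} {G : SimpleGraph V} (σ τ : G.edgeSet → ℤˣ) : Prop :=
  ∃ X : Set V, τ = switch σ X

/-- The frustration index `F(G, σ)`: the least number of negative edges over all signatures
switching equivalent to `σ`. -/
noncomputable def frustrationIndex {V : Type u} {G : SimpleGraph V} (σ : G.edgeSet → ℤˣ) : ℕ :=
  sInf {k : ℕ | ∃ τ : G.edgeSet → ℤˣ, SwitchingEquivalent σ τ ∧
    Nat.card {e : G.edgeSet // τ e = -1} = k}

/-- Every signed finite simple graph with maximum degree at most three and girth at least five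
has frustration index at most three tenths of its number of vertices. -/
theorem result {V : Type u} [Finite V] (G : SimpleGraph V)
    (hdeg : ∀ v, (G.neighborSet v).ncard ≤ 3) (hgirth : 5 ≤ G.egirth)
    (σ : G.edgeSet → ℤˣ) : 10 * frustrationIndex σ ≤ 3 * Nat.card V := by
  have h1 : frustrationIndex σ = Pool.Agent.Frus.frustration σ := by
    unfold frustrationIndex Pool.Agent.Frus.frustration
    congr 1
    ext k
    constructor
    · rintro ⟨τ, ⟨X, rfl⟩, h⟩
      exact ⟨X, h⟩
    · rintro ⟨X, h⟩
      exact ⟨_, ⟨X, rfl⟩, h⟩
  rw [h1]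
  exact Pool.Agent.Frus.final G hdeg hgirth σ

end Pool.Agent.Results.MP_c06078_co.GirthFive
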